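import Mathlib
import Pool.Agent.Lib.MP_bbe6b0_lc.Poset

namespace Pool.Agent.Results.MP_bbe6b0_lc.NotDefinable

open FirstOrder

/-- `P` is a down-poset: it is isomorphic to `(C, ≤)` for a semilattice with identity `S` (an
idempotent commutative monoid) acting on a set `C`, where `c ≤ d` iff `d s = c` for some `s`. -/
def IsDownPoset (P : Type) [PartialOrder P] : Prop :=
  ∃ (S : Type) (_ : CommMonoid S) (C : Type) (act : C → S → C) (e : P ≃ C),
    (∀ s : S, s * s = s) ∧ (∀ (c : C) (s t : S), act c (s * t) = act (act c s) t) ∧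
      (∀ c : C, act c 1 = c) ∧ ∀ p q : P, p ≤ q ↔ ∃ s : S, act (e q) s = e p

open Pool.Agent.Lib.MP_bbe6b0_lc in
/-- No first-order sentence in the language of `≤` defines the down-posets among the (nonempty)
finite posets. -/
theorem result : ¬ ∃ φ : Language.order.Sentence,
    ∀ (P : Type) [PartialOrder P] [Finite P] [Nonempty P],
      @Language.Sentence.Realize Language.order P (Language.orderStructure P) φ ↔
        IsDownPoset P := by
  rintro ⟨φ, hφ⟩
  obtain ⟨N, hN⟩ : ∃ N : ℕ, (qd φ + 2) * (2 ^ (qd φ + 1) + 1) < N := ⟨_, Nat.lt_succ_self _⟩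
  have : NeZero N := ⟨by omega⟩
  have hiff := realize_iff φ le_rfl hN
  have hyes : IsDownPoset (El N (0, true)) := by
    refine ⟨DownFun (El N (0, true)), inferInstance, El N (0, true), fun c s => s.1 c,
      Equiv.refl _, DownFun.mul_self, fun _ _ _ => rfl, fun _ => rfl, fun p q => ⟨fun h => ?_, ?_⟩⟩
    · obtain ⟨f, hf, hfq⟩ := El.exists_down rfl p q h
      exact ⟨⟨f, hf⟩, hfq⟩
    · rintro ⟨f, hf⟩
      exact (le_of_eq hf.symm).trans (f.2.1 q)
  have hno : ¬ IsDownPoset (El N (sh ((2 ^ qd φ + 1 : ℕ) : ℤ) (El.s N))) := by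
    rintro ⟨S, _, C, act, e, hid, hmul, -, hle⟩
    obtain ⟨s₀, hs₀⟩ := (hle El.c El.d).1 trivial
    refine El.not_down _ rfl (start_ne hN) (fun y => e.symm (act (e y) s₀)) ⟨?_, ?_, ?_⟩ ?_
    · intro y
      exact (hle _ _).2 ⟨s₀, by simp⟩
    · intro y z h
      obtain ⟨u, hu⟩ := (hle _ _).1 h
      refine (hle _ _).2 ⟨u, ?_⟩
      simp only [Equiv.apply_symm_apply]
      rw [← hu, ← hmul, ← hmul, mul_comm]
    · intro y z h
      obtain ⟨u, hu⟩ := (hle _ _).1 h
      simp only [Equiv.apply_symm_apply] at hu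
      rw [Equiv.symm_apply_eq, ← hu, ← hmul, ← hmul, ← hmul, mul_comm u, ← mul_assoc, hid]
    · rw [hs₀, Equiv.symm_apply_apply]
  have : Nonempty (El N (0, true)) := ⟨El.bot⟩
  have : Nonempty (El N (sh ((2 ^ qd φ + 1 : ℕ) : ℤ) (El.s N))) := ⟨El.bot⟩
  exact hno ((hφ _).1 (hiff.2 ((hφ _).2 hyes)))

end Pool.Agent.Results.MP_bbe6b0_lc.NotDefinable
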